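import Mathlib

/-!
# Acyclic modules for a group, in elementary form

`Res K G ρ` : a resolution of the `K[G]`-module `A` (action `ρ`) by the free modules
`(B i × G) →₀ K`.  `Acyc ρ` : for every such resolution the complex of coinvariants
`B i →₀ K` is exact in positive degrees.

`acyc_semidirect` : if `A` is acyclic for the normal subgroup `N` and its coinvariants are
acyclic for `Q`, then `A` is acyclic for `N ⋊ Q`.
-/

namespace Pool.Agent.H3.PF

variable {K : Type} [CommRing K]

/-- Left translation on the free module. -/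
noncomputable def tr (K : Type) [CommRing K] (B G : Type) [Group G] (g : G) :
    ((B × G) →₀ K) →ₗ[K] ((B × G) →₀ K) :=
  Finsupp.lmapDomain K K (fun p => (p.1, g * p.2))

/-- The projection to the coinvariants. -/
noncomputable def pr (K : Type) [CommRing K] (B G : Type) : ((B × G) →₀ K) →ₗ[K] (B →₀ K) :=
  Finsupp.lmapDomain K K Prod.fst

lemma tr_single (B G : Type) [Group G] (g : G) (b : B) (h : G) (c : K) :
    tr K B G g (Finsupp.single (b, h) c) = Finsupp.single (b, g * h) c := by
  simp [tr, Finsupp.lmapDomain_apply, Finsupp.mapDomain_single]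

lemma pr_single (B G : Type) (b : B) (h : G) (c : K) :
    pr K B G (Finsupp.single (b, h) c) = Finsupp.single b c := by
  simp [pr, Finsupp.lmapDomain_apply, Finsupp.mapDomain_single]

lemma pr_tr (B G : Type) [Group G] (g : G) (z : (B × G) →₀ K) :
    pr K B G (tr K B G g z) = pr K B G z := by
  have : (pr K B G) ∘ₗ (tr K B G g) = pr K B G := by
    refine Finsupp.lhom_ext fun p c => ?_
    obtain ⟨b, h⟩ := p
    rw [LinearMap.comp_apply, tr_single, pr_single, pr_single]
  exact LinearMap.congr_fun this z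

lemma pr_surjective (B G : Type) [Group G] : Function.Surjective (pr K B G) := by
  intro z
  induction z using Finsupp.induction_linear with
  | zero => exact ⟨0, map_zero _⟩
  | add x y hx hy =>
    obtain ⟨a, rfl⟩ := hx
    obtain ⟨b, rfl⟩ := hy
    exact ⟨a + b, map_add _ _ _⟩
  | single b c => exact ⟨Finsupp.single (b, 1) c, pr_single _ _ _ _ _⟩

/-- A free resolution of the representation `ρ`. -/
structure Res (K : Type) [CommRing K] (G : Type) [Group G] {A : Type} [AddCommGroup A]
    [Module K A] (ρ : G →* (A →ₗ[K] A)) where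
  B : ℕ → Type
  d : ∀ i, ((B (i + 1) × G) →₀ K) →ₗ[K] ((B i × G) →₀ K)
  ε : ((B 0 × G) →₀ K) →ₗ[K] A
  d_tr : ∀ i g z, d i (tr K _ G g z) = tr K _ G g (d i z)
  ε_tr : ∀ g z, ε (tr K _ G g z) = ρ g (ε z)
  surj : Function.Surjective ε
  ex0 : ∀ z, ε z = 0 ↔ ∃ w, d 0 w = z
  ex : ∀ i z, d i z = 0 ↔ ∃ w, d (i + 1) w = z

/-- `A` is acyclic: the coinvariants of every free resolution are exact in positive degrees. -/
def Acyc {G : Type} [Group G] {A : Type} [AddCommGroup A] [Module K A]
    (ρ : G →* (A →ₗ[K] A)) : Prop :=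
  ∀ R : Res K G ρ, ∀ i z, pr K _ G (R.d i z) = 0 →
    ∃ w, pr K _ G (R.d (i + 1) w) = pr K _ G z

section Trivial

lemma acyc_of_subsingleton {G : Type} [Group G] [Subsingleton G] {A : Type} [AddCommGroup A]
    [Module K A] (ρ : G →* (A →ₗ[K] A)) : Acyc ρ := by
  intro R i z hz
  have hinj : ∀ B : Type, Function.Injective (pr K B G) := by
    intro B
    refine Finsupp.mapDomain_injective ?_
    rintro ⟨b, g⟩ ⟨b', g'⟩ h
    exact Prod.ext h (Subsingleton.elim _ _)
  have h0 : R.d i z = 0 := hinj _ (by rw [hz, map_zero])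
  obtain ⟨w, hw⟩ := (R.ex i z).1 h0
  exact ⟨w, by rw [hw]⟩

end Trivial

section Equiv

variable {G H : Type} [Group G] [Group H]

/-- Reindexing along an isomorphism of groups. -/
noncomputable def reix (K : Type) [CommRing K] (B : Type) (e : G ≃* H) :
    ((B × G) →₀ K) ≃ₗ[K] ((B × H) →₀ K) :=
  Finsupp.domLCongr (Equiv.prodCongr (Equiv.refl B) e.toEquiv)

lemma reix_single (B : Type) (e : G ≃* H) (b : B) (g : G) (c : K) :
    reix K B e (Finsupp.single (b, g) c) = Finsupp.single (b, e g) c := by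
  simp [reix]

lemma reix_symm_single (B : Type) (e : G ≃* H) (b : B) (h : H) (c : K) :
    (reix K B e).symm (Finsupp.single (b, h) c) = Finsupp.single (b, e.symm h) c := by
  rw [LinearEquiv.symm_apply_eq, reix_single]
  simp

lemma reix_tr (B : Type) (e : G ≃* H) (g : G) (z : (B × G) →₀ K) :
    reix K B e (tr K B G g z) = tr K B H (e g) (reix K B e z) := by
  have : (reix K B e).toLinearMap ∘ₗ (tr K B G g)
      = (tr K B H (e g)) ∘ₗ (reix K B e).toLinearMap := by
    refine Finsupp.lhom_ext fun p c => ?_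
    obtain ⟨b, h⟩ := p
    simp only [LinearMap.comp_apply, LinearEquiv.coe_coe, tr_single, reix_single, map_mul]
  exact LinearMap.congr_fun this z

lemma reix_symm_tr (B : Type) (e : G ≃* H) (h : H) (z : (B × H) →₀ K) :
    (reix K B e).symm (tr K B H h z) = tr K B G (e.symm h) ((reix K B e).symm z) := by
  rw [LinearEquiv.symm_apply_eq, reix_tr]
  simp

lemma pr_reix (B : Type) (e : G ≃* H) (z : (B × G) →₀ K) :
    pr K B H (reix K B e z) = pr K B G z := by
  have : (pr K B H) ∘ₗ (reix K B e).toLinearMap = pr K B G := by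
    refine Finsupp.lhom_ext fun p c => ?_
    obtain ⟨b, h⟩ := p
    simp only [LinearMap.comp_apply, LinearEquiv.coe_coe, reix_single, pr_single]
  exact LinearMap.congr_fun this z

lemma pr_reix_symm (B : Type) (e : G ≃* H) (z : (B × H) →₀ K) :
    pr K B G ((reix K B e).symm z) = pr K B H z := by
  rw [← pr_reix B e, LinearEquiv.apply_symm_apply]

/-- Transport of acyclicity along an isomorphism. -/
theorem acyc_equiv {A : Type} [AddCommGroup A] [Module K A] (e : G ≃* H)
    (ρ : G →* (A →ₗ[K] A)) (σ : H →* (A →ₗ[K] A)) (hσ : ∀ g, σ (e g) = ρ g)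
    (h : Acyc ρ) : Acyc σ := by
  intro R i z hz
  have hσ' : ∀ y, σ y = ρ (e.symm y) := fun y => by rw [← hσ, MulEquiv.apply_symm_apply]
  let R' : Res K G ρ :=
    { B := R.B
      d := fun i => (reix K _ e).symm.toLinearMap ∘ₗ R.d i ∘ₗ (reix K _ e).toLinearMap
      ε := R.ε ∘ₗ (reix K _ e).toLinearMap
      d_tr := by
        intro i g z
        simp only [LinearMap.comp_apply, LinearEquiv.coe_coe, reix_tr, R.d_tr, reix_symm_tr,
          MulEquiv.symm_apply_apply]
      ε_tr := by
        intro g z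
        simp only [LinearMap.comp_apply, LinearEquiv.coe_coe, reix_tr, R.ε_tr, hσ]
      surj := R.surj.comp (reix K _ e).surjective
      ex0 := by
        intro z
        simp only [LinearMap.comp_apply, LinearEquiv.coe_coe]
        rw [R.ex0]
        constructor
        · rintro ⟨w, hw⟩
          refine ⟨(reix K _ e).symm w, ?_⟩
          rw [LinearEquiv.apply_symm_apply, hw, LinearEquiv.symm_apply_apply]
        · rintro ⟨w, hw⟩
          refine ⟨reix K _ e w, ?_⟩
          rw [← hw, LinearEquiv.apply_symm_apply]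
      ex := by
        intro i z
        simp only [LinearMap.comp_apply, LinearEquiv.coe_coe]
        rw [LinearEquiv.map_eq_zero_iff, R.ex]
        constructor
        · rintro ⟨w, hw⟩
          refine ⟨(reix K _ e).symm w, ?_⟩
          rw [LinearEquiv.apply_symm_apply, hw, LinearEquiv.symm_apply_apply]
        · rintro ⟨w, hw⟩
          refine ⟨reix K _ e w, ?_⟩
          rw [← hw, LinearEquiv.apply_symm_apply] }
  have hz' : pr K _ G (R'.d i ((reix K _ e).symm z)) = 0 := by
    show pr K _ G ((reix K _ e).symm (R.d i (reix K _ e ((reix K _ e).symm z)))) = 0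
    rw [LinearEquiv.apply_symm_apply, pr_reix_symm, hz]
  obtain ⟨w, hw⟩ := h R' i _ hz'
  refine ⟨reix K _ e w, ?_⟩
  have hw' : pr K _ G ((reix K _ e).symm (R.d (i + 1) (reix K _ e w)))
      = pr K _ G ((reix K _ e).symm z) := hw
  rwa [pr_reix_symm, pr_reix_symm] at hw'

end Equiv

section Semidirect

variable {N Q : Type} [Group N] [Group Q] (φ : Q →* MulAut N)

/-- Reindexing: the free module over `N ⋊ Q` as a free module over `N`. -/
noncomputable def rn (K : Type) [CommRing K] (B : Type) :
    (((B × Q) × N) →₀ K) ≃ₗ[K] ((B × (N ⋊[φ] Q)) →₀ K) :=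
  Finsupp.domLCongr
    { toFun := fun p => (p.1.1, ⟨p.2, p.1.2⟩)
      invFun := fun p => ((p.1, p.2.right), p.2.left)
      left_inv := fun _ => rfl
      right_inv := fun _ => rfl }

lemma rn_single (B : Type) (b : B) (q : Q) (n : N) (c : K) :
    rn φ K B (Finsupp.single ((b, q), n) c) = Finsupp.single (b, ⟨n, q⟩) c := by
  simp [rn]

/-- Coinvariants for `N` of the free module over `N ⋊ Q`. -/
noncomputable def pn (K : Type) [CommRing K] (B : Type) :
    ((B × (N ⋊[φ] Q)) →₀ K) →ₗ[K] ((B × Q) →₀ K) :=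
  Finsupp.lmapDomain K K (fun p => (p.1, p.2.right))

lemma pn_single (B : Type) (b : B) (g : N ⋊[φ] Q) (c : K) :
    pn φ K B (Finsupp.single (b, g) c) = Finsupp.single (b, g.right) c := by
  simp [pn, Finsupp.lmapDomain_apply, Finsupp.mapDomain_single]

lemma rn_tr (B : Type) (n : N) (z : ((B × Q) × N) →₀ K) :
    rn φ K B (tr K (B × Q) N n z) = tr K B (N ⋊[φ] Q) (SemidirectProduct.inl n) (rn φ K B z) := by
  have : (rn φ K B).toLinearMap ∘ₗ (tr K (B × Q) N n)
      = (tr K B (N ⋊[φ] Q) (SemidirectProduct.inl n)) ∘ₗ (rn φ K B).toLinearMap := by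
    refine Finsupp.lhom_ext fun p c => ?_
    obtain ⟨⟨b, q⟩, m⟩ := p
    simp only [LinearMap.comp_apply, LinearEquiv.coe_coe, tr_single, rn_single]
    congr 2
    ext <;> simp
  exact LinearMap.congr_fun this z

lemma rn_symm_tr (B : Type) (n : N) (z : (B × (N ⋊[φ] Q)) →₀ K) :
    (rn φ K B).symm (tr K B (N ⋊[φ] Q) (SemidirectProduct.inl n) z)
      = tr K (B × Q) N n ((rn φ K B).symm z) := by
  rw [LinearEquiv.symm_apply_eq, rn_tr, LinearEquiv.apply_symm_apply]

lemma pr_rn_symm (B : Type) (z : (B × (N ⋊[φ] Q)) →₀ K) :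
    pr K (B × Q) N ((rn φ K B).symm z) = pn φ K B z := by
  obtain ⟨y, rfl⟩ := (rn φ K B).surjective z
  rw [LinearEquiv.symm_apply_apply]
  have : pr K (B × Q) N = (pn φ K B) ∘ₗ (rn φ K B).toLinearMap := by
    refine Finsupp.lhom_ext fun p c => ?_
    obtain ⟨⟨b, q⟩, m⟩ := p
    simp only [LinearMap.comp_apply, LinearEquiv.coe_coe, pr_single, rn_single, pn_single]
  exact LinearMap.congr_fun this y

lemma pn_tr_inl (B : Type) (n : N) (z : (B × (N ⋊[φ] Q)) →₀ K) :
    pn φ K B (tr K B (N ⋊[φ] Q) (SemidirectProduct.inl n) z) = pn φ K B z := by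
  have : (pn φ K B) ∘ₗ (tr K B (N ⋊[φ] Q) (SemidirectProduct.inl n)) = pn φ K B := by
    refine Finsupp.lhom_ext fun p c => ?_
    obtain ⟨b, g⟩ := p
    simp only [LinearMap.comp_apply, tr_single, pn_single]
    congr 2
    simp
  exact LinearMap.congr_fun this z

lemma pn_tr_inr (B : Type) (q : Q) (z : (B × (N ⋊[φ] Q)) →₀ K) :
    pn φ K B (tr K B (N ⋊[φ] Q) (SemidirectProduct.inr q) z) = tr K B Q q (pn φ K B z) := by
  have : (pn φ K B) ∘ₗ (tr K B (N ⋊[φ] Q) (SemidirectProduct.inr q))
      = (tr K B Q q) ∘ₗ (pn φ K B) := by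
    refine Finsupp.lhom_ext fun p c => ?_
    obtain ⟨b, g⟩ := p
    simp only [LinearMap.comp_apply, tr_single, pn_single]
    congr 2
  exact LinearMap.congr_fun this z

lemma pr_pn (B : Type) (z : (B × (N ⋊[φ] Q)) →₀ K) :
    pr K B Q (pn φ K B z) = pr K B (N ⋊[φ] Q) z := by
  have : (pr K B Q) ∘ₗ (pn φ K B) = pr K B (N ⋊[φ] Q) := by
    refine Finsupp.lhom_ext fun p c => ?_
    obtain ⟨b, g⟩ := p
    simp only [LinearMap.comp_apply, pr_single, pn_single]
  exact LinearMap.congr_fun this z

/-- A section of `pn`. -/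
noncomputable def sec (K : Type) [CommRing K] (B : Type) :
    ((B × Q) →₀ K) →ₗ[K] ((B × (N ⋊[φ] Q)) →₀ K) :=
  Finsupp.lmapDomain K K (fun p => (p.1, SemidirectProduct.inr p.2))

lemma sec_single (B : Type) (b : B) (q : Q) (c : K) :
    sec φ K B (Finsupp.single (b, q) c) = Finsupp.single (b, SemidirectProduct.inr q) c := by
  simp [sec, Finsupp.lmapDomain_apply, Finsupp.mapDomain_single]

lemma pn_sec (B : Type) (z : (B × Q) →₀ K) : pn φ K B (sec φ K B z) = z := by
  have : (pn φ K B) ∘ₗ (sec φ K B) = LinearMap.id := by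
    refine Finsupp.lhom_ext fun p c => ?_
    obtain ⟨b, q⟩ := p
    simp only [LinearMap.comp_apply, sec_single, pn_single, LinearMap.id_apply]
    simp
  exact LinearMap.congr_fun this z

/-- A linear map which is unchanged under `tr (inl n)` factors through `pn`. -/
lemma factor {A : Type} [AddCommGroup A] [Module K A] (B : Type)
    (f : ((B × (N ⋊[φ] Q)) →₀ K) →ₗ[K] A)
    (hf : ∀ n z, f (tr K B (N ⋊[φ] Q) (SemidirectProduct.inl n) z) = f z)
    (z : (B × (N ⋊[φ] Q)) →₀ K) : f (sec φ K B (pn φ K B z)) = f z := by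
  have : f ∘ₗ (sec φ K B) ∘ₗ (pn φ K B) = f := by
    refine Finsupp.lhom_ext fun p c => ?_
    obtain ⟨b, g⟩ := p
    simp only [LinearMap.comp_apply, pn_single, sec_single]
    have hg : g = SemidirectProduct.inl g.left * SemidirectProduct.inr g.right := by
      simp
    have h2 : Finsupp.single (b, g) c
        = tr K B (N ⋊[φ] Q) (SemidirectProduct.inl g.left)
            (Finsupp.single (b, SemidirectProduct.inr g.right) c) := by
      rw [tr_single, ← hg]
    rw [h2, hf]
  exact LinearMap.congr_fun this z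

/-- **Semidirect products.**  If `A` is acyclic over the normal subgroup `N`, `p : A → A'` is the
map to the coinvariants under `N` and `A'` is acyclic over `Q`, then `A` is acyclic over
`N ⋊ Q`. -/
theorem acyc_semidirect {A A' : Type} [AddCommGroup A] [Module K A] [AddCommGroup A']
    [Module K A'] (ρ : (N ⋊[φ] Q) →* (A →ₗ[K] A)) (ρ' : Q →* (A' →ₗ[K] A')) (p : A →ₗ[K] A')
    (hp : Function.Surjective p)
    (hpq : ∀ q a, p (ρ (SemidirectProduct.inr q) a) = ρ' q (p a))
    (hker : ∀ a, p a = 0 ↔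
      a ∈ Submodule.span K {y | ∃ n : N, ∃ x : A, y = ρ (SemidirectProduct.inl n) x - x})
    (hN : Acyc (ρ.comp SemidirectProduct.inl)) (hQ : Acyc ρ') : Acyc ρ := by
  intro R i z hz
  -- the resolution over `N`
  let RN : Res K N (ρ.comp SemidirectProduct.inl) :=
    { B := fun i => R.B i × Q
      d := fun i => (rn φ K _).symm.toLinearMap ∘ₗ R.d i ∘ₗ (rn φ K _).toLinearMap
      ε := R.ε ∘ₗ (rn φ K _).toLinearMap
      d_tr := by
        intro i g z
        simp only [LinearMap.comp_apply, LinearEquiv.coe_coe, rn_tr, R.d_tr, rn_symm_tr]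
      ε_tr := by
        intro g z
        simp only [LinearMap.comp_apply, LinearEquiv.coe_coe, rn_tr, R.ε_tr,
          MonoidHom.comp_apply]
      surj := R.surj.comp (rn φ K _).surjective
      ex0 := by
        intro z
        simp only [LinearMap.comp_apply, LinearEquiv.coe_coe]
        rw [R.ex0]
        constructor
        · rintro ⟨w, hw⟩
          refine ⟨(rn φ K _).symm w, ?_⟩
          rw [LinearEquiv.apply_symm_apply, hw, LinearEquiv.symm_apply_apply]
        · rintro ⟨w, hw⟩
          refine ⟨rn φ K _ w, ?_⟩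
          rw [← hw, LinearEquiv.apply_symm_apply]
      ex := by
        intro i z
        simp only [LinearMap.comp_apply, LinearEquiv.coe_coe]
        rw [LinearEquiv.map_eq_zero_iff, R.ex]
        constructor
        · rintro ⟨w, hw⟩
          refine ⟨(rn φ K _).symm w, ?_⟩
          rw [LinearEquiv.apply_symm_apply, hw, LinearEquiv.symm_apply_apply]
        · rintro ⟨w, hw⟩
          refine ⟨rn φ K _ w, ?_⟩
          rw [← hw, LinearEquiv.apply_symm_apply] }
  -- exactness of the `N`-coinvariants in positive degrees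
  have exN : ∀ i z, pn φ K _ (R.d i z) = 0 → ∃ w, pn φ K _ (R.d (i + 1) w) = pn φ K _ z := by
    intro i z hz
    have h1 : pr K _ N (RN.d i ((rn φ K _).symm z)) = 0 := by
      show pr K _ N ((rn φ K _).symm (R.d i (rn φ K _ ((rn φ K _).symm z)))) = 0
      rw [LinearEquiv.apply_symm_apply, pr_rn_symm, hz]
    obtain ⟨w, hw⟩ := hN RN i _ h1
    refine ⟨rn φ K _ w, ?_⟩
    have hw' : pr K _ N ((rn φ K _).symm (R.d (i + 1) (rn φ K _ w)))
        = pr K _ N ((rn φ K _).symm z) := hw
    rwa [pr_rn_symm, pr_rn_symm] at hw'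
  have hpn : ∀ n a, p (ρ (SemidirectProduct.inl n) a) = p a := by
    intro n a
    have : p (ρ (SemidirectProduct.inl n) a - a) = 0 :=
      (hker _).2 (Submodule.subset_span ⟨n, a, rfl⟩)
    rwa [map_sub, sub_eq_zero] at this
  -- naturality
  have nat : ∀ i z, pn φ K _ (R.d i (sec φ K _ (pn φ K _ z))) = pn φ K _ (R.d i z) := by
    intro i z
    refine factor φ (R.B (i + 1)) ((pn φ K _) ∘ₗ R.d i) ?_ z
    intro n z
    simp only [LinearMap.comp_apply, R.d_tr, pn_tr_inl]
  have natε : ∀ z, p (R.ε (sec φ K _ (pn φ K _ z))) = p (R.ε z) := by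
    intro z
    refine factor φ (R.B 0) (p ∘ₗ R.ε) ?_ z
    intro n z
    simp only [LinearMap.comp_apply, R.ε_tr, hpn]
  have sec_tr : ∀ (B : Type) (q : Q) (z : (B × Q) →₀ K),
      sec φ K B (tr K B Q q z) = tr K B (N ⋊[φ] Q) (SemidirectProduct.inr q) (sec φ K B z) := by
    intro B q z
    have : (sec φ K B) ∘ₗ (tr K B Q q)
        = (tr K B (N ⋊[φ] Q) (SemidirectProduct.inr q)) ∘ₗ (sec φ K B) := by
      refine Finsupp.lhom_ext fun p c => ?_
      obtain ⟨b, q'⟩ := p
      simp only [LinearMap.comp_apply, tr_single, sec_single, map_mul]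
    exact LinearMap.congr_fun this z
  -- the resolution over `Q`
  let RQ : Res K Q ρ' :=
    { B := R.B
      d := fun i => (pn φ K _) ∘ₗ R.d i ∘ₗ (sec φ K _)
      ε := p ∘ₗ R.ε ∘ₗ (sec φ K _)
      d_tr := by
        intro i q z
        simp only [LinearMap.comp_apply, sec_tr, R.d_tr, pn_tr_inr]
      ε_tr := by
        intro q z
        simp only [LinearMap.comp_apply, sec_tr, R.ε_tr, hpq]
      surj := by
        intro a
        obtain ⟨b, rfl⟩ := hp a
        obtain ⟨y, rfl⟩ := R.surj b
        exact ⟨pn φ K _ y, natε y⟩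
      ex0 := by
        intro y
        simp only [LinearMap.comp_apply]
        constructor
        · intro hy
          rw [hker] at hy
          -- write the span element as `ε` of an element in the kernel of `pn`
          have key : ∀ a ∈ Submodule.span K
              {y | ∃ n : N, ∃ x : A, y = ρ (SemidirectProduct.inl n) x - x},
              ∃ t : (R.B 0 × (N ⋊[φ] Q)) →₀ K, R.ε t = a ∧ pn φ K _ t = 0 := by
            intro a ha
            induction ha using Submodule.span_induction with
            | mem a ha =>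
              obtain ⟨n, x, rfl⟩ := ha
              obtain ⟨t, rfl⟩ := R.surj x
              refine ⟨tr K _ _ (SemidirectProduct.inl n) t - t, ?_, ?_⟩
              · rw [map_sub, R.ε_tr]
              · rw [map_sub, pn_tr_inl, sub_self]
            | zero => exact ⟨0, by simp, by simp⟩
            | add a b _ _ ha hb =>
              obtain ⟨t, rfl, ht⟩ := ha
              obtain ⟨s, rfl, hs⟩ := hb
              exact ⟨t + s, by simp, by simp [ht, hs]⟩
            | smul c a _ ha =>
              obtain ⟨t, rfl, ht⟩ := ha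
              exact ⟨c • t, by simp, by simp [ht]⟩
          obtain ⟨t, ht, ht0⟩ := key _ hy
          have h1 : R.ε (sec φ K _ y - t) = 0 := by rw [map_sub, ht, sub_self]
          obtain ⟨w, hw⟩ := (R.ex0 _).1 h1
          refine ⟨pn φ K _ w, ?_⟩
          rw [nat, hw, map_sub, ht0, sub_zero, pn_sec]
        · rintro ⟨w, rfl⟩
          have h2 : p (R.ε (sec φ K _ (pn φ K _ (R.d 0 (sec φ K _ w)))))
              = p (R.ε (R.d 0 (sec φ K _ w))) := natε _
          rw [h2, (R.ex0 _).2 ⟨_, rfl⟩, map_zero]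
      ex := by
        intro i y
        simp only [LinearMap.comp_apply]
        constructor
        · intro hy
          obtain ⟨w, hw⟩ := exN i _ hy
          refine ⟨pn φ K _ w, ?_⟩
          rw [nat, hw, pn_sec]
        · rintro ⟨w, rfl⟩
          rw [nat, (R.ex i _).2 ⟨_, rfl⟩, map_zero] }
  have hz' : pr K _ Q (RQ.d i (pn φ K _ z)) = 0 := by
    show pr K _ Q (pn φ K _ (R.d i (sec φ K _ (pn φ K _ z)))) = 0
    rw [nat, pr_pn, hz]
  obtain ⟨w, hw⟩ := hQ RQ i _ hz'
  refine ⟨sec φ K _ w, ?_⟩
  have hw' : pr K _ Q (pn φ K _ (R.d (i + 1) (sec φ K _ w))) = pr K _ Q (pn φ K _ z) := hw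
  rwa [pr_pn, pr_pn] at hw'

end Semidirect

end Pool.Agent.H3.PF
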