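import Pool.Agent.H47.CD.Trans

/-!
# helper3: the statement of the tower (Part 1 of the proof of the Charney-Davis conjecture)

`Good E G D`: `D` is a division ring with involution, containing the division ring `E` with its involution, and
units `u g` which act on `E` as `G` does, with `(u g)* = (u g)⁻¹`, such that `E ⋊ G → D` transports resolutions.
`P G`: every division ring with involution and compatible action of `G` has such a `D`.
-/

namespace Pool.Agent.H3.PF

open Pool.Agent.H47.CD SkewMonoidAlgebra

section Skew

variable {E G D : Type} [Ring E] [Group G] [MulSemiringAction G E] [Ring D]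

/-- ring homomorphism out of a skew group ring -/
noncomputable def skLift (ι : E →+* D) (u : G →* Dˣ)
    (h : ∀ g e, (u g : D) * ι e = ι (g • e) * u g) : SkewMonoidAlgebra E G →+* D :=
  liftNCRingHom ι ((Units.coeHom D).comp u) (by intro e g; exact (h g e).symm)

theorem skLift_single (ι : E →+* D) (u : G →* Dˣ)
    (h : ∀ g e, (u g : D) * ι e = ι (g • e) * u g) (g : G) (e : E) :
    skLift ι u h (single g e) = ι e * u g := by
  change liftNC _ _ _ = _
  rw [liftNC_single]
  rfl

theorem skHom_ext {f f' : SkewMonoidAlgebra E G →+* D}
    (h : ∀ g e, f (single g e) = f' (single g e)) : f = f' := by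
  have : (f : SkewMonoidAlgebra E G →+ D) = (f' : SkewMonoidAlgebra E G →+ D) :=
    SkewMonoidAlgebra.addHom_ext h
  exact RingHom.ext (fun x => DFunLike.congr_fun this x)

end Skew

/-- the data of a step of the tower -/
structure Good (E G D : Type) [DivisionRing E] [StarRing E] [Group G] [MulSemiringAction G E]
    [DivisionRing D] [StarRing D] where
  /-- the embedding of the division ring -/
  ι : E →+* D
  /-- the embedding of the group -/
  u : G →* Dˣ
  comm : ∀ g e, (u g : D) * ι e = ι (g • e) * u g
  star_ι : ∀ e, star (ι e) = ι (star e)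
  star_u : ∀ g, star (u g : D) = ((u g)⁻¹ : Dˣ)
  tr : Transport (skLift ι u comm)

/-- the statement of the tower, for one group -/
def P (G : Type) [Group G] : Prop :=
  ∀ (E : Type) [DivisionRing E] [StarRing E] [MulSemiringAction G E],
    (∀ (g : G) (e : E), g • star e = star (g • e)) →
    ∃ (D : Type) (_ : DivisionRing D) (_ : StarRing D), Nonempty (Good E G D)

/-- What the construction of the universal field of fractions of `E ⋊ FreeGroup X` gives. -/
structure Block (E X D : Type) [DivisionRing E] [MulSemiringAction (FreeGroup X) E]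
    [DivisionRing D] where
  /-- the embedding -/
  j : SkewMonoidAlgebra E (FreeGroup X) →+* D
  gen : Subfield.closure (Set.range j) = ⊤
  tr : Transport j
  ext : ∀ α : SkewMonoidAlgebra E (FreeGroup X) ≃+* SkewMonoidAlgebra E (FreeGroup X),
    ∃ β : D ≃+* D, ∀ s, β (j s) = j (α s)
  extop : ∀ α : SkewMonoidAlgebra E (FreeGroup X) ≃+* (SkewMonoidAlgebra E (FreeGroup X))ᵐᵒᵖ,
    ∃ β : D ≃+* Dᵐᵒᵖ, ∀ s, β (j s) = MulOpposite.op (j (MulOpposite.unop (α s)))

end Pool.Agent.H3.PF
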