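import Mathlib

/-!
# Fox derivatives: the augmentation ideal of a free group is free

`fox y g` is the element of `ℤ[F]` with `g - 1 = ∑ (y - 1) * fox y g`.
`J_inj` : a finite family `t x` of finitely supported functions on the free group with
`∑ (x · t x - t x) = 0` is zero.
-/

namespace Pool.Agent.H3.PF

variable {X : Type}

section Fox

/-- Right translation by `g`. -/
noncomputable def sh (X : Type) (g : FreeGroup X) : (FreeGroup X →₀ ℤ) ≃+ (FreeGroup X →₀ ℤ) :=
  Finsupp.domCongr (Equiv.mulRight g)

lemma sh_single (g h : FreeGroup X) (n : ℤ) :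
    sh X g (Finsupp.single h n) = Finsupp.single (h * g) n := by
  simp [sh]

lemma sh_sh (g g' : FreeGroup X) (f : FreeGroup X →₀ ℤ) : sh X g (sh X g' f) = sh X (g' * g) f := by
  induction f using Finsupp.induction_linear with
  | zero => simp
  | add a b ha hb => simp only [map_add, ha, hb]
  | single h n => rw [sh_single, sh_single, sh_single, mul_assoc]

lemma sh_one (f : FreeGroup X →₀ ℤ) : sh X 1 f = f := by
  induction f using Finsupp.induction_linear with
  | zero => simp
  | add a b ha hb => simp only [map_add, ha, hb]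
  | single h n => rw [sh_single, mul_one]

/-- The action on the multiplicative copy. -/
noncomputable def cact (X : Type) : FreeGroup X →* MulAut (Multiplicative (FreeGroup X →₀ ℤ)) where
  toFun g := AddEquiv.toMultiplicative (sh X g⁻¹)
  map_one' := by
    refine MulEquiv.ext fun f => ?_
    show Multiplicative.ofAdd (sh X 1⁻¹ (Multiplicative.toAdd f)) = f
    rw [inv_one, sh_one]; rfl
  map_mul' g g' := by
    refine MulEquiv.ext fun f => ?_
    show Multiplicative.ofAdd (sh X (g * g')⁻¹ (Multiplicative.toAdd f))
      = Multiplicative.ofAdd (sh X g⁻¹ (sh X g'⁻¹ (Multiplicative.toAdd f)))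
    rw [sh_sh, mul_inv_rev]

lemma cact_apply (g : FreeGroup X) (a : FreeGroup X →₀ ℤ) :
    cact X g (Multiplicative.ofAdd a) = Multiplicative.ofAdd (sh X g⁻¹ a) := rfl

variable [DecidableEq X]

/-- The lift to the semidirect product. -/
noncomputable def flift (y : X) :
    FreeGroup X →* (Multiplicative (FreeGroup X →₀ ℤ)) ⋊[cact X] (FreeGroup X) :=
  FreeGroup.lift fun x =>
    ⟨Multiplicative.ofAdd (if x = y then Finsupp.single (FreeGroup.of x)⁻¹ 1 else 0),
      FreeGroup.of x⟩

lemma flift_right (y : X) (g : FreeGroup X) : (flift y g).right = g := by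
  have : (SemidirectProduct.rightHom.comp (flift y)) = MonoidHom.id _ := by
    refine FreeGroup.ext_hom _ _ fun x => ?_
    simp [flift]
  exact DFunLike.congr_fun this g

/-- The Fox derivative. -/
noncomputable def fox (y : X) (g : FreeGroup X) : FreeGroup X →₀ ℤ :=
  sh X g (Multiplicative.toAdd (flift y g).left)

lemma fox_of_mul (y x : X) (h : FreeGroup X) :
    fox y (FreeGroup.of x * h)
      = fox y h + (if x = y then Finsupp.single h 1 else 0) := by
  unfold fox
  rw [map_mul, SemidirectProduct.mul_left, flift_right]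
  have h1 : (flift y (FreeGroup.of x)).left
      = Multiplicative.ofAdd (if x = y then Finsupp.single (FreeGroup.of x)⁻¹ 1 else 0) := by
    simp [flift]
  rw [h1]
  have h2 : (cact X (FreeGroup.of x)) (flift y h).left
      = Multiplicative.ofAdd (sh X (FreeGroup.of x)⁻¹ (Multiplicative.toAdd (flift y h).left)) :=
    rfl
  rw [h2, ← ofAdd_add, toAdd_ofAdd, map_add]
  rw [add_comm]
  congr 1
  · rw [sh_sh]
    congr 2
    group
  · by_cases hx : x = y
    · simp only [hx, if_true, sh_single]
      congr 1
      group
    · simp [hx]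

end Fox

/-! ### The map `J` -/

section J

variable (M : Type) [AddCommGroup M]

/-- left translation by `g` of functions on `B × F` -/
noncomputable def ltr (B G : Type) [Group G] (g : G) : ((B × G) →₀ M) →+ ((B × G) →₀ M) :=
  Finsupp.mapDomain.addMonoidHom (fun p => (p.1, g * p.2))

lemma ltr_single (B G : Type) [Group G] (g : G) (b : B) (h : G) (m : M) :
    ltr M B G g (Finsupp.single (b, h) m) = Finsupp.single (b, g * h) m := by
  simp [ltr, Finsupp.mapDomain_single]

/-- The Fox derivative with coefficients. -/
noncomputable def foxM [DecidableEq X] (B : Type) (y : X) :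
    ((B × FreeGroup X) →₀ M) →+ ((B × FreeGroup X) →₀ M) :=
  Finsupp.liftAddHom fun p =>
    { toFun := fun m => (fox y p.2).sum fun h n => Finsupp.single (p.1, h) (n • m)
      map_zero' := by simp
      map_add' := by
        intro m m'
        rw [← Finsupp.sum_add]
        refine Finsupp.sum_congr fun h _ => ?_
        rw [smul_add, Finsupp.single_add] }

lemma foxM_single [DecidableEq X] (B : Type) (y : X) (b : B) (g : FreeGroup X) (m : M) :
    foxM M B y (Finsupp.single (b, g) m)
      = (fox y g).sum fun h n => Finsupp.single (b, h) (n • m) := by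
  simp [foxM]

lemma foxM_ltr [DecidableEq X] (B : Type) (y x : X) (z : (B × FreeGroup X) →₀ M) :
    foxM M B y (ltr M B _ (FreeGroup.of x) z - z) = if x = y then z else 0 := by
  induction z using Finsupp.induction_linear with
  | zero => simp
  | add a b ha hb =>
    rw [map_add, add_sub_add_comm, map_add, ha, hb]
    split_ifs <;> simp
  | single p m =>
    obtain ⟨b, h⟩ := p
    rw [ltr_single, map_sub, foxM_single, foxM_single, fox_of_mul]
    have hadd : (fox y h + (if x = y then Finsupp.single h 1 else 0)).sum
          (fun h n => Finsupp.single (b, h) (n • m))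
        = (fox y h).sum (fun h n => Finsupp.single (b, h) (n • m))
          + (if x = y then Finsupp.single h (1 : ℤ) else 0).sum
            (fun h n => Finsupp.single (b, h) (n • m)) := by
      refine Finsupp.sum_add_index' ?_ ?_
      · intro a; simp
      · intro a n n'; rw [add_smul, Finsupp.single_add]
    rw [hadd, add_sub_cancel_left]
    split_ifs with hx
    · rw [Finsupp.sum_single_index (by simp), one_smul]
    · simp

/-- The augmentation ideal of a free group is free. -/
theorem J_inj (B : Type) (t : X →₀ ((B × FreeGroup X) →₀ M))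
    (h : (t.sum fun x z => ltr M B _ (FreeGroup.of x) z - z) = 0) : t = 0 := by
  classical
  ext1 y
  have h1 := congrArg (foxM M B y) h
  rw [map_zero, Finsupp.sum, map_sum] at h1
  simp only [foxM_ltr] at h1
  rw [Finset.sum_ite_eq'] at h1
  by_cases hy : y ∈ t.support
  · rw [if_pos hy] at h1
    rw [h1]; rfl
  · rw [Finsupp.notMem_support_iff.1 hy]; rfl

/-- Function form, left translations. -/
theorem J_inj_fun (t : X →₀ (FreeGroup X →₀ M))
    (h : ∀ g, (t.sum fun x z => z ((FreeGroup.of x)⁻¹ * g) - z g) = 0) : t = 0 := by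
  classical
  -- pass to `B = Unit`
  let e : FreeGroup X ≃ Unit × FreeGroup X :=
    { toFun := fun g => ((), g)
      invFun := fun p => p.2
      left_inv := fun _ => rfl
      right_inv := fun _ => rfl }
  let E : (FreeGroup X →₀ M) ≃+ ((Unit × FreeGroup X) →₀ M) := Finsupp.domCongr e
  let t' : X →₀ ((Unit × FreeGroup X) →₀ M) := t.mapRange E (map_zero E)
  have hE : ∀ (f : FreeGroup X →₀ M) p, E f p = f p.2 := by
    intro f p
    simp [E, e, Finsupp.domCongr_apply, Finsupp.equivMapDomain_apply]
  have hl : ∀ (x : X) (z : (Unit × FreeGroup X) →₀ M) (p : Unit × FreeGroup X),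
      ltr M Unit _ (FreeGroup.of x) z p = z ((), (FreeGroup.of x)⁻¹ * p.2) := by
    intro x z p
    obtain ⟨_, g⟩ := p
    have hinj : Function.Injective
        (fun p : Unit × FreeGroup X => (p.1, FreeGroup.of x * p.2)) := by
      rintro ⟨_, a⟩ ⟨_, b⟩ hab
      simpa using hab
    have h1 := Finsupp.mapDomain_apply hinj z ((), (FreeGroup.of x)⁻¹ * g)
    simpa [ltr] using h1
  have ht' : t' = 0 := by
    refine J_inj M Unit t' ?_
    ext p
    rw [Finsupp.sum_apply, Finsupp.sum_mapRange_index (by intro a; simp)]
    simp only [Finsupp.sub_apply, hl, hE, Finsupp.coe_zero, Pi.zero_apply]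
    exact h p.2
  ext y g
  have h2 := congrArg (fun s => s y ((), g)) ht'
  simp only [t', Finsupp.mapRange_apply, hE, Finsupp.coe_zero, Pi.zero_apply] at h2
  rw [h2]; rfl

/-- Function form, right translations. -/
theorem J_inj_fun_right (t : X →₀ (FreeGroup X →₀ M))
    (h : ∀ g, (t.sum fun x z => z (g * (FreeGroup.of x)⁻¹) - z g) = 0) : t = 0 := by
  classical
  -- `s x k = t x (k⁻¹ x⁻¹)`
  let s : X →₀ (FreeGroup X →₀ M) :=
    Finsupp.onFinset t.support
      (fun x => (Finsupp.domCongr (M := M)
        ((Equiv.mulRight (FreeGroup.of x)).trans (Equiv.inv (FreeGroup X))) : _ ≃+ _) (t x))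
      (by
        intro x hx
        rw [Finsupp.mem_support_iff]
        intro h0
        rw [h0, map_zero] at hx
        exact hx rfl)
  have hs : ∀ x k, s x k = t x (k⁻¹ * (FreeGroup.of x)⁻¹) := by
    intro x k
    simp [s, Finsupp.domCongr_apply, Finsupp.equivMapDomain_apply]
  have hs0 : s = 0 := by
    refine J_inj_fun M s ?_
    intro g
    have h1 := h g⁻¹
    rw [Finsupp.sum] at h1 ⊢
    have hsub : s.support ⊆ t.support := by
      intro x hx
      rw [Finsupp.mem_support_iff] at hx ⊢
      intro h0
      apply hx
      ext k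
      rw [hs, h0]; rfl
    rw [Finset.sum_subset hsub (by
      intro x _ hx
      rw [Finsupp.notMem_support_iff] at hx
      simp [hx])]
    rw [← neg_eq_zero, ← Finset.sum_neg_distrib, ← h1]
    refine Finset.sum_congr rfl fun x _ => ?_
    rw [hs, hs, neg_sub]
    congr 2
    group
  ext y g
  have h2 := hs y ((FreeGroup.of y)⁻¹ * g⁻¹)
  rw [hs0] at h2
  have h3 : ((FreeGroup.of y)⁻¹ * g⁻¹)⁻¹ * (FreeGroup.of y)⁻¹ = g := by group
  rw [h3] at h2
  rw [← h2]; rfl

end J

end Pool.Agent.H3.PF
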