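import Pool.Agent.H3.PF.Acyc
import Pool.Agent.H3.PF.Fox

/-!
# Acyclicity for free groups

`acyc_free` : if `(a x) ↦ ∑ (x · a x - a x)` is injective on finite families, then `A` is acyclic
for the free group.
-/

namespace Pool.Agent.H3.PF

variable {K : Type} [CommRing K] {X : Type}

/-- The map `J` for a representation of the free group. -/
noncomputable def Jm {A : Type} [AddCommGroup A] [Module K A]
    (ρ : FreeGroup X →* (A →ₗ[K] A)) : (X →₀ A) →ₗ[K] A :=
  Finsupp.lsum K fun x => ρ (FreeGroup.of x) - LinearMap.id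

lemma Jm_apply {A : Type} [AddCommGroup A] [Module K A]
    (ρ : FreeGroup X →* (A →ₗ[K] A)) (t : X →₀ A) :
    Jm ρ t = t.sum fun x a => ρ (FreeGroup.of x) a - a := by
  rw [Jm, Finsupp.lsum_apply]
  rfl

lemma Jm_single {A : Type} [AddCommGroup A] [Module K A]
    (ρ : FreeGroup X →* (A →ₗ[K] A)) (x : X) (a : A) :
    Jm ρ (Finsupp.single x a) = ρ (FreeGroup.of x) a - a := by
  rw [Jm_apply, Finsupp.sum_single_index (by simp)]

/-- The free module as a representation. -/
noncomputable def freeRep (K : Type) [CommRing K] (B G : Type) [Group G] :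
    G →* (((B × G) →₀ K) →ₗ[K] ((B × G) →₀ K)) where
  toFun g := tr K B G g
  map_one' := by
    refine Finsupp.lhom_ext fun p c => ?_
    obtain ⟨b, h⟩ := p
    rw [tr_single, one_mul]; rfl
  map_mul' g g' := by
    refine Finsupp.lhom_ext fun p c => ?_
    obtain ⟨b, h⟩ := p
    rw [tr_single, Module.End.mul_apply, tr_single, tr_single, mul_assoc]

lemma freeRep_apply (B G : Type) [Group G] (g : G) : freeRep K B G g = tr K B G g := rfl

lemma Jm_free_inj (B : Type) (t : X →₀ ((B × FreeGroup X) →₀ K))
    (h : Jm (freeRep K B (FreeGroup X)) t = 0) : t = 0 := by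
  classical
  refine J_inj K B t ?_
  rw [Jm_apply] at h
  exact h

lemma mem_range_of_rep {A : Type} [AddCommGroup A] [Module K A]
    (ρ : FreeGroup X →* (A →ₗ[K] A)) (g : FreeGroup X) :
    ∀ a, ρ g a - a ∈ LinearMap.range (Jm ρ) := by
  induction g using FreeGroup.induction_on with
  | C1 => intro a; simp
  | of x => intro a; exact ⟨Finsupp.single x a, Jm_single ρ x a⟩
  | inv_of x _ =>
    intro a
    have h1 := Jm_single ρ x (ρ (FreeGroup.of x)⁻¹ a)
    have h2 : ρ (FreeGroup.of x) (ρ (FreeGroup.of x)⁻¹ a) = a := by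
      rw [← Module.End.mul_apply, ← map_mul, mul_inv_cancel, map_one]; rfl
    rw [h2] at h1
    refine ⟨- Finsupp.single x (ρ (FreeGroup.of x)⁻¹ a), ?_⟩
    rw [map_neg, h1, neg_sub]
  | mul g h hg hh =>
    intro a
    rw [map_mul, Module.End.mul_apply]
    have := Submodule.add_mem _ (hg (ρ h a)) (hh a)
    simpa using this

lemma free_range (B : Type) (z : (B × FreeGroup X) →₀ K)
    (hz : pr K B (FreeGroup X) z = 0) :
    ∃ t, Jm (freeRep K B (FreeGroup X)) t = z := by
  let s : (B →₀ K) →ₗ[K] ((B × FreeGroup X) →₀ K) :=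
    Finsupp.lmapDomain K K (fun b => (b, (1 : FreeGroup X)))
  have hs : ∀ b c, s (Finsupp.single b c) = Finsupp.single (b, 1) c := by
    intro b c
    simp [s, Finsupp.lmapDomain_apply, Finsupp.mapDomain_single]
  have key : ∀ z : (B × FreeGroup X) →₀ K,
      z - s (pr K B (FreeGroup X) z) ∈ LinearMap.range (Jm (freeRep K B (FreeGroup X))) := by
    intro z
    induction z using Finsupp.induction_linear with
    | zero => simp
    | add a b ha hb =>
      have := Submodule.add_mem _ ha hb
      have e : a + b - s (pr K B (FreeGroup X) (a + b))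
          = (a - s (pr K B (FreeGroup X) a)) + (b - s (pr K B (FreeGroup X) b)) := by
        rw [map_add, map_add]; abel
      rw [e]; exact this
    | single p c =>
      obtain ⟨b, g⟩ := p
      rw [pr_single, hs]
      have := mem_range_of_rep (freeRep K B (FreeGroup X)) g (Finsupp.single (b, 1) c)
      rw [freeRep_apply, tr_single, mul_one] at this
      exact this
  have h := key z
  rw [hz, map_zero, sub_zero] at h
  exact h

theorem acyc_free {A : Type} [AddCommGroup A] [Module K A]
    (ρ : FreeGroup X →* (A →ₗ[K] A))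
    (hJ : ∀ t : X →₀ A, (t.sum fun x a => ρ (FreeGroup.of x) a - a) = 0 → t = 0) :
    Acyc ρ := by
  classical
  intro R i z hz
  obtain ⟨w, hw⟩ := free_range (R.B i) (R.d i z) hz
  -- `w` is a family of boundaries
  have hw0 : ∀ x, ∃ y, R.d i y = w x := by
    cases i with
    | zero =>
      have h1 : w.mapRange R.ε (map_zero R.ε) = 0 := by
        refine hJ _ ?_
        rw [Finsupp.sum_mapRange_index (by intro a; simp)]
        have h2 := congrArg R.ε hw
        rw [(R.ex0 _).2 ⟨_, rfl⟩, Jm_apply, Finsupp.sum, map_sum] at h2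
        rw [Finsupp.sum, ← h2]
        refine Finset.sum_congr rfl fun x _ => ?_
        rw [map_sub, freeRep_apply, R.ε_tr]
      intro x
      have h3 := congrArg (fun s => s x) h1
      simp only [Finsupp.mapRange_apply, Finsupp.coe_zero, Pi.zero_apply] at h3
      exact (R.ex0 _).1 h3
    | succ i =>
      have h1 : w.mapRange (R.d i) (map_zero (R.d i)) = 0 := by
        refine Jm_free_inj (R.B i) _ ?_
        rw [Jm_apply, Finsupp.sum_mapRange_index (by intro a; simp)]
        have h2 := congrArg (R.d i) hw
        rw [(R.ex i _).2 ⟨_, rfl⟩, Jm_apply, Finsupp.sum, map_sum] at h2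
        rw [Finsupp.sum, ← h2]
        refine Finset.sum_congr rfl fun x _ => ?_
        rw [map_sub, freeRep_apply, freeRep_apply, R.d_tr]
      intro x
      have h3 := congrArg (fun s => s x) h1
      simp only [Finsupp.mapRange_apply, Finsupp.coe_zero, Pi.zero_apply] at h3
      exact (R.ex i _).1 h3
  choose y hy using hw0
  let v : X →₀ ((R.B (i + 1) × FreeGroup X) →₀ K) :=
    Finsupp.onFinset w.support (fun x => if w x = 0 then 0 else y x)
      (by
        intro x hx
        rw [Finsupp.mem_support_iff]
        intro h0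
        exact hx (if_pos h0))
  have hv : ∀ x, R.d i (v x) = w x := by
    intro x
    show R.d i (if w x = 0 then 0 else y x) = w x
    split_ifs with h0
    · rw [map_zero, h0]
    · exact hy x
  have hJv : R.d i (Jm (freeRep K _ (FreeGroup X)) v) = R.d i z := by
    rw [← hw, Jm_apply, Jm_apply]
    have hsub : v.support ⊆ w.support := by
      intro x hx
      rw [Finsupp.mem_support_iff] at hx ⊢
      intro h0
      exact hx (if_pos h0)
    rw [Finsupp.sum, Finsupp.sum, Finset.sum_subset hsub (by
      intro x _ hx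
      rw [Finsupp.notMem_support_iff] at hx
      simp [hx]), map_sum]
    refine Finset.sum_congr rfl fun x _ => ?_
    rw [map_sub, freeRep_apply, R.d_tr, hv, freeRep_apply]
  have h0 : R.d i (z - Jm (freeRep K _ (FreeGroup X)) v) = 0 := by
    rw [map_sub, hJv, sub_self]
  obtain ⟨u, hu⟩ := (R.ex i _).1 h0
  refine ⟨u, ?_⟩
  rw [hu, map_sub]
  have hpr : pr K (R.B (i + 1)) (FreeGroup X) (Jm (freeRep K _ (FreeGroup X)) v) = 0 := by
    rw [Jm_apply, Finsupp.sum, map_sum]
    refine Finset.sum_eq_zero fun x _ => ?_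
    rw [map_sub, freeRep_apply, pr_tr, sub_self]
  rw [hpr, sub_zero]

end Pool.Agent.H3.PF
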