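import Pool.Agent.H3.PF.Defs

/-!
# helper3: functoriality of skew group rings, the star anti-automorphism
-/

namespace Pool.Agent.H3.PF

open SkewMonoidAlgebra

section Map

variable {E E' G G' : Type} [Ring E] [Ring E'] [Group G] [Group G'] [MulSemiringAction G E]
  [MulSemiringAction G' E']

theorem skmul (g h : G) (a b : E) :
    (single g a * single h b : SkewMonoidAlgebra E G) = single (g * h) (a * g • b) :=
  single_mul_single

/-- the coefficients -/
noncomputable def skC : E →+* SkewMonoidAlgebra E G where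
  toFun e := single 1 e
  map_one' := rfl
  map_mul' a b := by rw [skmul, one_smul, one_mul]
  map_zero' := single_zero 1
  map_add' a b := single_add 1 a b

theorem skC_apply (e : E) : (skC e : SkewMonoidAlgebra E G) = single 1 e := rfl

/-- the group -/
noncomputable def skU : G →* (SkewMonoidAlgebra E G)ˣ where
  toFun g := ⟨single g 1, single g⁻¹ 1,
    by rw [skmul, smul_one, mul_one, mul_inv_cancel]; rfl,
    by rw [skmul, smul_one, mul_one, inv_mul_cancel]; rfl⟩
  map_one' := Units.ext rfl
  map_mul' a b := by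
    apply Units.ext
    change single (a * b) 1 = single a 1 * single b 1
    rw [skmul, smul_one, mul_one]

theorem skU_apply (g : G) : ((skU g : (SkewMonoidAlgebra E G)ˣ) : SkewMonoidAlgebra E G) =
    single g 1 := rfl

theorem skC_mul_skU (g : G) (e : E) :
    (skC e * ((skU g : (SkewMonoidAlgebra E G)ˣ) : SkewMonoidAlgebra E G)) = single g e := by
  rw [skC_apply, skU_apply, skmul, one_mul, one_smul, mul_one]

theorem skU_mul_skC (g : G) (e : E) :
    (((skU g : (SkewMonoidAlgebra E G)ˣ) : SkewMonoidAlgebra E G) * skC e) = single g (g • e) := by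
  rw [skC_apply, skU_apply, skmul, one_mul, mul_one]

/-- a covariant pair induces a homomorphism of skew group rings -/
noncomputable def skMap (ε : E →+* E') (ψ : G →* G') (h : ∀ g e, ε (g • e) = ψ g • ε e) :
    SkewMonoidAlgebra E G →+* SkewMonoidAlgebra E' G' :=
  skLift (skC.comp ε) (skU.comp ψ) (by
    intro g e
    rw [MonoidHom.comp_apply, RingHom.comp_apply, RingHom.comp_apply, skU_mul_skC, skC_mul_skU, h])

theorem skMap_single (ε : E →+* E') (ψ : G →* G') (h : ∀ g e, ε (g • e) = ψ g • ε e) (g : G)
    (e : E) : skMap ε ψ h (single g e) = single (ψ g) (ε e) := by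
  rw [skMap, skLift_single, MonoidHom.comp_apply, RingHom.comp_apply, skC_mul_skU]

theorem skMap_skMap {E'' G'' : Type} [Ring E''] [Group G''] [MulSemiringAction G'' E'']
    (ε : E →+* E') (ψ : G →* G') (h : ∀ g e, ε (g • e) = ψ g • ε e)
    (ε' : E' →+* E'') (ψ' : G' →* G'') (h' : ∀ g e, ε' (g • e) = ψ' g • ε' e) (g : G) (e : E) :
    skMap ε' ψ' h' (skMap ε ψ h (single g e)) = single (ψ' (ψ g)) (ε' (ε e)) := by
  rw [skMap_single, skMap_single]

theorem equiv_symm_compat (ε : E ≃+* E') (ψ : G ≃* G') (h : ∀ g e, ε (g • e) = ψ g • ε e)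
    (g : G') (e : E') : ε.symm (g • e) = ψ.symm g • ε.symm e := by
  apply ε.injective
  have := h (ψ.symm g) (ε.symm e)
  rw [RingEquiv.apply_symm_apply, MulEquiv.apply_symm_apply] at this
  rw [this, RingEquiv.apply_symm_apply]

/-- an isomorphism of pairs induces an isomorphism of skew group rings -/
noncomputable def skEquiv (ε : E ≃+* E') (ψ : G ≃* G') (h : ∀ g e, ε (g • e) = ψ g • ε e) :
    SkewMonoidAlgebra E G ≃+* SkewMonoidAlgebra E' G' :=
  RingEquiv.ofRingHom (skMap ε.toRingHom ψ.toMonoidHom h)
    (skMap ε.symm.toRingHom ψ.symm.toMonoidHom (equiv_symm_compat ε ψ h))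
    (skHom_ext (fun g e => (skMap_skMap _ _ (equiv_symm_compat ε ψ h) _ _ h g e).trans (by
      change single (ψ (ψ.symm g)) (ε (ε.symm e)) = single g e
      rw [RingEquiv.apply_symm_apply, MulEquiv.apply_symm_apply])))
    (skHom_ext (fun g e => (skMap_skMap _ _ h _ _ (equiv_symm_compat ε ψ h) g e).trans (by
      change single (ψ.symm (ψ g)) (ε.symm (ε e)) = single g e
      rw [RingEquiv.symm_apply_apply, MulEquiv.symm_apply_apply])))

theorem skEquiv_single (ε : E ≃+* E') (ψ : G ≃* G') (h : ∀ g e, ε (g • e) = ψ g • ε e) (g : G)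
    (e : E) : skEquiv ε ψ h (single g e) = single (ψ g) (ε e) :=
  skMap_single ε.toRingHom ψ.toMonoidHom h g e

end Map

section Star

variable {E G : Type} [Ring E] [StarRing E] [Group G] [MulSemiringAction G E]

/-- the star on the coefficients, into the opposite of the skew group ring -/
noncomputable def skStarC : E →+* (SkewMonoidAlgebra E G)ᵐᵒᵖ where
  toFun e := MulOpposite.op (skC (star e))
  map_one' := by rw [star_one, map_one, MulOpposite.op_one]
  map_mul' a b := by rw [star_mul, map_mul, MulOpposite.op_mul]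
  map_zero' := by rw [star_zero, map_zero, MulOpposite.op_zero]
  map_add' a b := by rw [star_add, map_add, MulOpposite.op_add]

theorem skStarC_apply (e : E) :
    (skStarC e : (SkewMonoidAlgebra E G)ᵐᵒᵖ) = MulOpposite.op (skC (star e)) := rfl

/-- the inverse on the group, into the opposite of the skew group ring -/
noncomputable def skStarU {E G : Type} [Ring E] [Group G] [MulSemiringAction G E] : G →* ((SkewMonoidAlgebra E G)ᵐᵒᵖ)ˣ where
  toFun g := ⟨MulOpposite.op ((skU g⁻¹ : (SkewMonoidAlgebra E G)ˣ) : SkewMonoidAlgebra E G),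
    MulOpposite.op ((skU g : (SkewMonoidAlgebra E G)ˣ) : SkewMonoidAlgebra E G),
    by rw [← MulOpposite.op_mul, ← Units.val_mul, ← map_mul, mul_inv_cancel, map_one]; rfl,
    by rw [← MulOpposite.op_mul, ← Units.val_mul, ← map_mul, inv_mul_cancel, map_one]; rfl⟩
  map_one' := by
    apply Units.ext
    change MulOpposite.op ((skU (1 : G)⁻¹ : (SkewMonoidAlgebra E G)ˣ) : SkewMonoidAlgebra E G) = 1
    rw [inv_one, map_one]
    rfl
  map_mul' a b := by
    apply Units.ext
    change MulOpposite.op ((skU (a * b)⁻¹ : (SkewMonoidAlgebra E G)ˣ) : SkewMonoidAlgebra E G) =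
      MulOpposite.op ((skU a⁻¹ : (SkewMonoidAlgebra E G)ˣ) : SkewMonoidAlgebra E G) *
      MulOpposite.op ((skU b⁻¹ : (SkewMonoidAlgebra E G)ˣ) : SkewMonoidAlgebra E G)
    rw [← MulOpposite.op_mul, ← Units.val_mul, ← map_mul, mul_inv_rev]

theorem skStarU_apply {E G : Type} [Ring E] [Group G] [MulSemiringAction G E] (g : G) : ((skStarU g : ((SkewMonoidAlgebra E G)ᵐᵒᵖ)ˣ) :
    (SkewMonoidAlgebra E G)ᵐᵒᵖ) =
    MulOpposite.op ((skU g⁻¹ : (SkewMonoidAlgebra E G)ˣ) : SkewMonoidAlgebra E G) := rfl

/-- the star of the skew group ring, as a homomorphism to the opposite ring -/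
noncomputable def skStarHom (hs : ∀ (g : G) (e : E), g • star e = star (g • e)) :
    SkewMonoidAlgebra E G →+* (SkewMonoidAlgebra E G)ᵐᵒᵖ :=
  skLift skStarC skStarU (by
    intro g e
    rw [skStarU_apply, skStarC_apply, skStarC_apply, ← MulOpposite.op_mul, ← MulOpposite.op_mul,
      skU_mul_skC, skC_mul_skU, ← hs g e, inv_smul_smul])

theorem skStarHom_single (hs : ∀ (g : G) (e : E), g • star e = star (g • e)) (g : G) (e : E) :
    skStarHom hs (single g e) = MulOpposite.op (single g⁻¹ (g⁻¹ • star e)) := by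
  rw [skStarHom, skLift_single, skStarC_apply, skStarU_apply, ← MulOpposite.op_mul, skU_mul_skC]

theorem skStarHom_skStarHom (hs : ∀ (g : G) (e : E), g • star e = star (g • e))
    (x : SkewMonoidAlgebra E G) :
    MulOpposite.unop (skStarHom hs (MulOpposite.unop (skStarHom hs x))) = x := by
  induction x using SkewMonoidAlgebra.induction_on with
  | zero => rw [map_zero, MulOpposite.unop_zero, map_zero, MulOpposite.unop_zero]
  | single g e =>
    rw [skStarHom_single, MulOpposite.unop_op, skStarHom_single, MulOpposite.unop_op, inv_inv,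
      hs, smul_inv_smul, star_star]
  | add a b ha hb =>
    rw [map_add, MulOpposite.unop_add, map_add, MulOpposite.unop_add, ha, hb]

/-- the star of the skew group ring -/
noncomputable def skStar (hs : ∀ (g : G) (e : E), g • star e = star (g • e)) :
    SkewMonoidAlgebra E G ≃+* (SkewMonoidAlgebra E G)ᵐᵒᵖ :=
  RingEquiv.ofBijective (skStarHom hs) (by
    constructor
    · intro x y h
      rw [← skStarHom_skStarHom hs x, ← skStarHom_skStarHom hs y, h]
    · intro y
      refine ⟨MulOpposite.unop (skStarHom hs (MulOpposite.unop y)), ?_⟩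
      rw [← MulOpposite.op_unop (skStarHom hs _), skStarHom_skStarHom, MulOpposite.op_unop])

theorem skStar_apply (hs : ∀ (g : G) (e : E), g • star e = star (g • e))
    (x : SkewMonoidAlgebra E G) : skStar hs x = skStarHom hs x := rfl

end Star

end Pool.Agent.H3.PF
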