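import Pool.Agent.H3.PF.Skew
import Pool.Agent.H96.CD.Split
import Pool.Agent.H47.CD.StepP

/-!
# helper3: the tower, assembly
-/

namespace Pool.Agent.H3.PF

open Pool.Agent.H47.CD SkewMonoidAlgebra

/-- the trivial group -/
theorem P_one (G : Type) [Group G] [Subsingleton G] : P G := by
  intro E _ _ _ hs
  refine ⟨E, inferInstance, inferInstance, ⟨{
    ι := RingHom.id E
    u := 1
    comm := fun g e => by
      have hg : g = 1 := Subsingleton.elim _ _
      rw [hg, one_smul, MonoidHom.one_apply, Units.val_one, one_mul, mul_one]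
    star_ι := fun e => rfl
    star_u := fun g => by
      rw [MonoidHom.one_apply, Units.val_one, inv_one, Units.val_one, star_one]
    tr := ?_ }⟩⟩
  apply Transport.of_bijective
  constructor
  · rw [injective_iff_map_eq_zero]
    intro x hx
    have h1 : x = single 1 (x.coeff 1) := by
      apply SkewMonoidAlgebra.ext
      intro g
      have hg : g = 1 := Subsingleton.elim _ _
      rw [hg, coeff_single, Finsupp.single_eq_same]
    rw [h1, skLift_single, MonoidHom.one_apply, Units.val_one, mul_one] at hx
    rw [h1]
    change single 1 (x.coeff 1) = 0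
    rw [show x.coeff 1 = 0 from hx, single_zero]
  · intro e
    refine ⟨single 1 e, ?_⟩
    rw [skLift_single, MonoidHom.one_apply, Units.val_one, mul_one]
    rfl

theorem P_unit : P Unit := P_one Unit

/-- invariance under isomorphism -/
theorem P_iso (G H : Type) [Group G] [Group H] (e : G ≃* H) (hG : P G) : P H := by
  intro E _ _ aH hs
  let aG : MulSemiringAction G E := MulSemiringAction.compHom E (e : G →* H)
  have hsm : ∀ (g : G) (x : E), g • x = e g • x := fun _ _ => rfl
  obtain ⟨D, _, _, ⟨K⟩⟩ := hG E (by
    intro g x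
    rw [hsm, hsm, hs])
  have hcomm : ∀ (h : H) (x : E), (K.u.comp (e.symm : H →* G) h : D) * K.ι x =
      K.ι (h • x) * K.u.comp (e.symm : H →* G) h := by
    intro h x
    change (K.u (e.symm h) : D) * K.ι x = K.ι (h • x) * K.u (e.symm h)
    rw [K.comm, hsm, MulEquiv.apply_symm_apply]
  refine ⟨D, inferInstance, inferInstance, ⟨{
    ι := K.ι
    u := K.u.comp (e.symm : H →* G)
    comm := hcomm
    star_ι := K.star_ι
    star_u := fun h => K.star_u (e.symm h)
    tr := ?_ }⟩⟩
  have h1 : ∀ (h : H) (x : E), (RingEquiv.refl E) (h • x) = e.symm h • (RingEquiv.refl E) x := by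
    intro h x
    rw [hsm, MulEquiv.apply_symm_apply]
    rfl
  have key : skLift K.ι (K.u.comp (e.symm : H →* G)) hcomm
      = (skLift K.ι K.u K.comm).comp (skEquiv (RingEquiv.refl E) e.symm h1).toRingHom := by
    refine skHom_ext (fun h x => ?_)
    rw [skLift_single]
    change _ = skLift K.ι K.u K.comm (skEquiv (RingEquiv.refl E) e.symm h1 (single h x))
    rw [skEquiv_single, skLift_single]
    rfl
  rw [key]
  exact Transport.comp _ _ (Transport.of_bijective _ (skEquiv (RingEquiv.refl E) e.symm h1).bijective)
    K.tr

/-- THE TOWER: the statement `P` for the commutator subgroups of right-angled Coxeter groups -/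
theorem P_Gam (V : Type) [Fintype V] [DecidableEq V] (adj : V → V → Prop) [DecidableRel adj]
    (hsymm : ∀ u v, adj u v → adj v u) : P (Pool.Agent.H96.CD.Gam adj hsymm) :=
  Pool.Agent.H96.CD.gam_induction (fun G _ => P G) (fun G H _ _ e h => P_iso G H e h) P_unit
    (fun X Q _ φ h => P_step X Q φ h) V adj hsymm

/-! ### trivial actions -/

/-- the trivial action -/
@[reducible] def trivAct (G E : Type) [Group G] [Ring E] : MulSemiringAction G E where
  smul _ e := e
  one_smul _ := rfl
  mul_smul _ _ _ := rfl
  smul_zero _ := rfl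
  smul_add _ _ _ := rfl
  smul_one _ := rfl
  smul_mul _ _ _ := rfl

section Triv

variable {G E : Type} [Group G] [CommRing E] [MulSemiringAction G E] (ht : ∀ (g : G) (e : E), g • e = e)
include ht

/-- from the group ring to the skew group ring of the trivial action -/
noncomputable def maToSk : MonoidAlgebra E G →+* SkewMonoidAlgebra E G :=
  MonoidAlgebra.liftNCRingHom skC ((Units.coeHom _).comp skU) (by
    intro e g
    change skC e * ((skU g : (SkewMonoidAlgebra E G)ˣ) : SkewMonoidAlgebra E G) =
      ((skU g : (SkewMonoidAlgebra E G)ˣ) : SkewMonoidAlgebra E G) * skC e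
    rw [skU_mul_skC, skC_mul_skU, ht])

theorem maToSk_single (g : G) (e : E) : maToSk ht (MonoidAlgebra.single g e) = single g e := by
  rw [maToSk, MonoidAlgebra.liftNCRingHom_single]
  exact skC_mul_skU g e

/-- the group ring elements -/
noncomputable def maU : G →* (MonoidAlgebra E G)ˣ where
  toFun g := ⟨MonoidAlgebra.single g 1, MonoidAlgebra.single g⁻¹ 1,
    by rw [MonoidAlgebra.single_mul_single, mul_inv_cancel, mul_one]; rfl,
    by rw [MonoidAlgebra.single_mul_single, inv_mul_cancel, mul_one]; rfl⟩
  map_one' := Units.ext rfl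
  map_mul' a b := by
    apply Units.ext
    change MonoidAlgebra.single (a * b) 1 = MonoidAlgebra.single a 1 * MonoidAlgebra.single b 1
    rw [MonoidAlgebra.single_mul_single, mul_one]

/-- from the skew group ring of the trivial action to the group ring -/
noncomputable def skToMa : SkewMonoidAlgebra E G →+* MonoidAlgebra E G :=
  skLift MonoidAlgebra.singleOneRingHom maU (by
    intro g e
    change MonoidAlgebra.single g 1 * MonoidAlgebra.single 1 e
      = MonoidAlgebra.single 1 (g • e) * MonoidAlgebra.single g 1
    rw [MonoidAlgebra.single_mul_single, MonoidAlgebra.single_mul_single, ht, mul_one, one_mul,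
      mul_one, one_mul])

theorem skToMa_single (g : G) (e : E) : skToMa ht (single g e) = MonoidAlgebra.single g e := by
  rw [skToMa, skLift_single]
  change MonoidAlgebra.single 1 e * MonoidAlgebra.single g 1 = _
  rw [MonoidAlgebra.single_mul_single, one_mul, mul_one]

theorem maToSk_bijective : Function.Bijective (maToSk ht) := by
  have h1 : (skToMa ht).comp (maToSk ht) = RingHom.id _ := by
    refine MonoidAlgebra.ringHom_ext (fun r => ?_) (fun m => ?_)
    · rw [RingHom.comp_apply, maToSk_single, skToMa_single]; rfl
    · rw [RingHom.comp_apply, maToSk_single, skToMa_single]; rfl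
  have h2 : (maToSk ht).comp (skToMa ht) = RingHom.id _ := by
    refine skHom_ext (fun g e => ?_)
    rw [RingHom.comp_apply, skToMa_single, maToSk_single]; rfl
  exact Function.bijective_iff_has_inverse.2 ⟨skToMa ht, RingHom.congr_fun h1, RingHom.congr_fun h2⟩

end Triv

/-- The consumer's form over the field with two elements. -/
theorem exists_field (G : Type) [Group G] (hG : P G) :
    ∃ (D : Type) (_ : DivisionRing D) (_ : StarRing D) (u : G →* Dˣ)
      (Φ : MonoidAlgebra (ZMod 2) G →+* D), CharP D 2 ∧
      (∀ g, star (u g : D) = ((u g)⁻¹ : Dˣ)) ∧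
      (∀ g, Φ (MonoidAlgebra.single g 1) = u g) ∧ Transport Φ := by
  let _ : MulSemiringAction G (ZMod 2) := trivAct G (ZMod 2)
  let _ : StarRing (ZMod 2) := starRingOfComm
  obtain ⟨D, _, _, ⟨K⟩⟩ := hG (ZMod 2) (fun g e => rfl)
  have ht : ∀ (g : G) (e : ZMod 2), g • e = e := fun _ _ => rfl
  refine ⟨D, inferInstance, inferInstance, K.u, (skLift K.ι K.u K.comm).comp (maToSk ht), ?_,
    K.star_u, ?_, ?_⟩
  · exact charP_of_injective_ringHom K.ι.injective 2
  · intro g
    rw [RingHom.comp_apply, maToSk_single, skLift_single, map_one, one_mul]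
  · exact Transport.comp _ _ (Transport.of_bijective _ (maToSk_bijective ht)) K.tr

/-- MAIN THEOREM OF PART 1. A division ring of characteristic 2 with involution, containing the commutator
subgroup of a right-angled Coxeter group, `u g` unitary, such that base change from the group ring transports
resolutions. -/
theorem exists_field_Gam (V : Type) [Fintype V] [DecidableEq V] (adj : V → V → Prop)
    [DecidableRel adj] (hsymm : ∀ u v, adj u v → adj v u) :
    ∃ (D : Type) (_ : DivisionRing D) (_ : StarRing D)
      (u : Pool.Agent.H96.CD.Gam adj hsymm →* Dˣ)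
      (Φ : MonoidAlgebra (ZMod 2) (Pool.Agent.H96.CD.Gam adj hsymm) →+* D), CharP D 2 ∧
      (∀ g, star (u g : D) = ((u g)⁻¹ : Dˣ)) ∧
      (∀ g, Φ (MonoidAlgebra.single g 1) = u g) ∧ Transport Φ :=
  exists_field _ (P_Gam V adj hsymm)

end Pool.Agent.H3.PF
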